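import Pool.Agent.Work.MP_bfacb1_co.Proof

namespace Pool.Agent.Results.MP_bfacb1_co.HouseK5

open Pool.Agent.Work.MP_bfacb1_co

/-- For `G = K_5` and `H` the house (the 4-cycle `0 1 2 3` with the triangle `0 1 4` on the edge
`0 1`), the set `K(G,H)` is exactly `{5, 7}`; it is not an interval. -/
theorem result :
    colourCounts (⊤ : SimpleGraph (Fin 5))
      (SimpleGraph.fromEdgeSet
        {s(0, 1), s(1, 2), s(2, 3), s(0, 3), s(0, 4), s(1, 4)} : SimpleGraph (Fin 5)) = {5, 7} :=
  main

end Pool.Agent.Results.MP_bfacb1_co.HouseK5
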